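import Pool.Agent.H72.UV.Targets

/-!
# Modules HYP and HYP2: locally finite hypergraphs
-/

set_option autoImplicit false

open Set Filter Topology

namespace Pool.Agent.H97.UV

open Pool.Agent.H72.UV

variable {V : Type}

lemma conn_singleton (E : Set (Finset V)) (x : V) : Conn E {x} := by
  refine ⟨Finset.singleton_nonempty x, ?_⟩
  rintro S ⟨y, hy, hyS⟩ ⟨z, hz, hzS⟩
  rw [Finset.mem_singleton] at hy hz
  subst hy; subst hz
  exact absurd hyS hzS

lemma conn_edge {E : Set (Finset V)} {W : Finset V} (hW : W ∈ E) (hne : W.Nonempty) :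
    Conn E W :=
  ⟨hne, fun _ h1 h2 => ⟨W, hW, Finset.Subset.refl _, h1, h2⟩⟩

lemma conn_union [DecidableEq V] {E : Set (Finset V)} {D D' : Finset V} (hD : Conn E D)
    (hD' : Conn E D') (h : ∃ x ∈ D, x ∈ D') : Conn E (D ∪ D') := by
  obtain ⟨x, hx, hx'⟩ := h
  refine ⟨⟨x, Finset.mem_union_left _ hx⟩, ?_⟩
  rintro S ⟨y, hy, hyS⟩ ⟨z, hz, hzS⟩
  by_cases h1 : (∃ x ∈ D, x ∈ S) ∧ ∃ x ∈ D, x ∉ S
  · obtain ⟨W, hW, hWD, hh⟩ := hD.2 S h1.1 h1.2
    exact ⟨W, hW, hWD.trans Finset.subset_union_left, hh⟩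
  by_cases h2 : (∃ x ∈ D', x ∈ S) ∧ ∃ x ∈ D', x ∉ S
  · obtain ⟨W, hW, hWD, hh⟩ := hD'.2 S h2.1 h2.2
    exact ⟨W, hW, hWD.trans Finset.subset_union_right, hh⟩
  exfalso
  by_cases hxS : x ∈ S
  · have hDS : ∀ y ∈ D, y ∈ S := fun y hy => by
      by_contra h
      exact h1 ⟨⟨x, hx, hxS⟩, y, hy, h⟩
    have hDS' : ∀ y ∈ D', y ∈ S := fun y hy => by
      by_contra h
      exact h2 ⟨⟨x, hx', hxS⟩, y, hy, h⟩
    rcases Finset.mem_union.1 hz with h | h
    · exact hzS (hDS z h)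
    · exact hzS (hDS' z h)
  · have hDS : ∀ y ∈ D, y ∉ S := fun y hy h => h1 ⟨⟨y, hy, h⟩, x, hx, hxS⟩
    have hDS' : ∀ y ∈ D', y ∉ S := fun y hy h => h2 ⟨⟨y, hy, h⟩, x, hx', hxS⟩
    rcases Finset.mem_union.1 hy with h | h
    · exact hDS y h hyS
    · exact hDS' y h hyS

/-- maximal connected subsets -/
lemma exists_max (E : Set (Finset V)) (P : Finset V → Prop) (β : ℕ)
    (hβ : ∀ D, Conn E D → P D → D.card ≤ β)
    (hP : ∀ [DecidableEq V] D D', P D → P D' → P (D ∪ D')) (x : V) (hx : P {x}) :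
    ∃ D, Conn E D ∧ P D ∧ x ∈ D ∧ ∀ D', Conn E D' → P D' → x ∈ D' → D' ⊆ D := by
  classical
  set A : Set ℕ := {n | ∃ D, Conn E D ∧ P D ∧ x ∈ D ∧ D.card = n} with hA
  have hne : A.Nonempty := ⟨_, {x}, conn_singleton E x, hx, Finset.mem_singleton_self x, rfl⟩
  have hbdd : BddAbove A := by
    refine ⟨β, ?_⟩
    rintro n ⟨D, hD, hPD, -, rfl⟩
    exact hβ D hD hPD
  obtain ⟨D, hD, hPD, hxD, hcard⟩ := Nat.sSup_mem hne hbdd
  refine ⟨D, hD, hPD, hxD, fun D' hD' hPD' hxD' => ?_⟩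
  have h1 : Conn E (D ∪ D') := conn_union hD hD' ⟨x, hxD, hxD'⟩
  have h2 : (D ∪ D').card ≤ D.card := by
    rw [hcard]
    exact le_csSup hbdd ⟨_, h1, hP D D' hPD hPD', Finset.mem_union_left _ hxD, rfl⟩
  have h3 : D = D ∪ D' := Finset.eq_of_subset_of_card_le Finset.subset_union_left h2
  rw [h3]
  exact Finset.subset_union_right

theorem hyp2 : T_HYP2 := by
  classical
  intro V E hfin F hF β hβ
  set E1 : Set (Finset V) := {W | W ∈ E ∧ ∀ x ∈ W, x ∉ F} with hE1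
  have hmax : ∀ x : V, ∃ D, Conn E1 D ∧ x ∈ D ∧ ∀ D', Conn E1 D' → x ∈ D' → D' ⊆ D := by
    intro x
    obtain ⟨D, h1, -, h2, h3⟩ := exists_max E1 (fun _ => True) β (fun D hD _ => hβ D hD)
      (fun _ _ _ _ => trivial) x trivial
    exact ⟨D, h1, h2, fun D' h h' => h3 D' h trivial h'⟩
  choose cl hcl hmem hsub using hmax
  have hcleq : ∀ x y, y ∈ cl x → cl y = cl x := by
    intro x y hy
    have h1 : cl x ⊆ cl y := hsub y (cl x) (hcl x) hy
    exact Finset.Subset.antisymm (hsub x (cl y) (hcl y) (h1 (hmem x))) h1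
  have hE1cl : ∀ x, ∀ W ∈ E1, (∃ y ∈ W, y ∈ cl x) → W ⊆ cl x := by
    rintro x W hW ⟨y, hyW, hy⟩
    have h1 : Conn E1 (cl x ∪ W) := conn_union (hcl x) (conn_edge hW ⟨y, hyW⟩) ⟨y, hy, hyW⟩
    exact Finset.subset_union_right.trans
      (hsub x _ h1 (Finset.mem_union_left _ (hmem x)))
  have hclF : ∀ x, x ∉ F → ∀ y ∈ cl x, y ∉ F := by
    intro x hx y hy hyF
    have h1 := hcleq x y hy
    obtain ⟨W, hW, -, ⟨z, hz, hzy⟩, -⟩ := (hcl y).2 {y} ⟨y, hmem y, rfl⟩
      ⟨x, by rw [h1]; exact hmem x, fun h => hx (by rw [mem_singleton_iff.1 h]; exact hyF)⟩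
    rw [mem_singleton_iff] at hzy
    exact hW.2 z hz (hzy ▸ hyF)
  set Y : Set V := {y | y ∉ F ∧ ∃ W ∈ E, y ∈ W ∧ ∃ z ∈ W, z ∈ F} with hY
  have hYfin : Y.Finite := by
    have h1 : Y ⊆ ⋃ z ∈ F, ⋃ W ∈ {W | W ∈ E ∧ z ∈ W}, (W : Set V) := by
      rintro y ⟨-, W, hW, hyW, z, hzW, hzF⟩
      simp only [mem_iUnion]
      exact ⟨z, hzF, W, ⟨hW, hzW⟩, hyW⟩
    refine (Set.Finite.biUnion hF fun z _ => Set.Finite.biUnion (hfin z) fun W _ => ?_).subset h1
    exact W.finite_toSet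
  refine ⟨F ∪ ⋃ y ∈ Y, (cl y : Set V), cl,
    hF.union (Set.Finite.biUnion hYfin fun y _ => (cl y).finite_toSet), subset_union_left, ?_⟩
  intro x hx
  have hxF : x ∉ F := fun h => hx (Or.inl h)
  have hxY : ∀ y ∈ Y, x ∉ cl y := fun y hy h => hx (Or.inr (by
    simp only [mem_iUnion]
    exact ⟨y, hy, h⟩))
  refine ⟨hmem x, hβ _ (hcl x), ?_, ?_⟩
  · intro y hy
    refine ⟨?_, hcleq x y hy⟩
    rintro (h | h)
    · exact hclF x hxF y hy h
    · simp only [mem_iUnion] at h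
      obtain ⟨y', hy', hyy'⟩ := h
      have h1 : cl y = cl y' := hcleq y' y hyy'
      refine hxY y' hy' ?_
      rw [← h1, hcleq x y hy]
      exact hmem x
  · rintro W hW ⟨y, hyW, hy⟩
    by_cases hWF : ∃ z ∈ W, z ∈ F
    · exfalso
      have hyF : y ∉ F := hclF x hxF y hy
      refine hxY y ⟨hyF, W, hW, hyW, hWF⟩ ?_
      rw [hcleq x y hy]
      exact hmem x
    · push Not at hWF
      exact hE1cl x W ⟨hW, hWF⟩ ⟨y, hyW, hy⟩

/-- cutting down connected sets -/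
lemma conn_cut (E : Set (Finset V)) (m : ℕ) (hm : ∀ W ∈ E, W.card ≤ m) (D : Finset V)
    (hD : Conn E D) (x : V) (hx : x ∈ D) (N : ℕ) :
    1 ≤ N → N ≤ D.card → ∃ D', Conn E D' ∧ x ∈ D' ∧ D' ⊆ D ∧ N ≤ D'.card ∧ D'.card ≤ N + m := by
  classical
  intro h1
  induction N, h1 using Nat.le_induction with
  | base =>
    intro _
    exact ⟨{x}, conn_singleton E x, Finset.mem_singleton_self x,
      Finset.singleton_subset_iff.2 hx, by simp, by simp⟩
  | succ N hN ih =>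
    intro hND
    obtain ⟨D', hD', hxD', hsub, hle, hge⟩ := ih (by omega)
    by_cases hc : N + 1 ≤ D'.card
    · exact ⟨D', hD', hxD', hsub, hc, by omega⟩
    · have hne : ∃ y ∈ D, y ∉ (D' : Set V) := by
        by_contra h
        push Not at h
        have : D ⊆ D' := fun y hy => by simpa using h y hy
        have := Finset.card_le_card this
        omega
      obtain ⟨W, hW, hWD, ⟨y, hyW, hyD'⟩, z, hzW, hzD'⟩ :=
        hD.2 (D' : Set V) ⟨x, hx, by simpa using hxD'⟩ hne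
      refine ⟨D' ∪ W, conn_union hD' (conn_edge hW ⟨y, hyW⟩) ⟨y, by simpa using hyD', hyW⟩,
        Finset.mem_union_left _ hxD', Finset.union_subset hsub hWD, ?_, ?_⟩
      · have : insert z D' ⊆ D' ∪ W := by
          intro t ht
          rcases Finset.mem_insert.1 ht with rfl | h
          · exact Finset.mem_union_right _ hzW
          · exact Finset.mem_union_left _ h
        have h2 := Finset.card_le_card this
        rw [Finset.card_insert_of_notMem (by simpa using hzD')] at h2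
        omega
      · have h3 := Finset.card_union_le D' W
        have h4 := hm W hW
        omega

/-- the union of the edges meeting a finite set is finite -/
lemma exists_nbhd (E : Set (Finset V)) (hfin : ∀ x : V, {W | W ∈ E ∧ x ∈ W}.Finite)
    (Q : Finset V) : ∃ N : Finset V, ∀ W ∈ E, (∃ x ∈ W, x ∈ Q) → W ⊆ N := by
  classical
  have h1 : {W | W ∈ E ∧ ∃ x ∈ W, x ∈ Q}.Finite := by
    have : {W | W ∈ E ∧ ∃ x ∈ W, x ∈ Q} ⊆ ⋃ x ∈ Q, {W | W ∈ E ∧ x ∈ W} := by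
      rintro W ⟨hW, x, hxW, hxQ⟩
      simp only [mem_iUnion]
      exact ⟨x, hxQ, hW, hxW⟩
    exact (Set.Finite.biUnion Q.finite_toSet fun x _ => hfin x).subset this
  refine ⟨h1.toFinset.biUnion id, fun W hW hQ x hx => ?_⟩
  rw [Finset.mem_biUnion]
  exact ⟨W, h1.mem_toFinset.2 ⟨hW, hQ⟩, hx⟩

/-- large connected sets disjoint from a finite set -/
lemma conn_avoid (E : Set (Finset V)) (hfin : ∀ x : V, {W | W ∈ E ∧ x ∈ W}.Finite)
    (hbig : ∀ N : ℕ, ∃ D : Finset V, Conn E D ∧ N ≤ D.card) (Q : Finset V) (N : ℕ) :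
    ∃ D : Finset V, Conn E D ∧ Disjoint D Q ∧ N ≤ D.card := by
  classical
  obtain ⟨NQ, hNQ⟩ := exists_nbhd E hfin Q
  obtain ⟨D, hD, hcard⟩ := hbig (Q.card + NQ.card * N + N + 1)
  by_cases hdis : Disjoint D Q
  · exact ⟨D, hD, hdis, by omega⟩
  rw [Finset.not_disjoint_iff] at hdis
  obtain ⟨q, hqD, hqQ⟩ := hdis
  set D0 := D \ Q with hD0
  -- the components of `D0`
  have hmax : ∀ x : V, x ∈ D0 → ∃ D', Conn E D' ∧ D' ⊆ D0 ∧ x ∈ D' ∧
      ∀ D'', Conn E D'' → D'' ⊆ D0 → x ∈ D'' → D'' ⊆ D' := by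
    intro x hx
    exact exists_max E (fun D' => D' ⊆ D0) D0.card (fun D' _ h => Finset.card_le_card h)
      (by
        intro inst A B hA hB t ht
        rcases Finset.mem_union.1 ht with h | h
        · exact hA h
        · exact hB h) x (Finset.singleton_subset_iff.2 hx)
  choose! cl hcl hcl0 hmem hsub using hmax
  have hpt : ∀ x ∈ D0, ∃ z ∈ NQ, z ∈ D0 ∧ x ∈ cl z := by
    intro x hx
    have hq : q ∉ cl x := fun h => (Finset.mem_sdiff.1 (hcl0 x hx h)).2 hqQ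
    have hxD : x ∈ D := (Finset.mem_sdiff.1 hx).1
    obtain ⟨W, hW, hWD, ⟨y, hyW, hyC⟩, z, hzW, hzC⟩ :=
      hD.2 (cl x : Set V) ⟨x, hxD, by simpa using hmem x hx⟩ ⟨q, hqD, by simpa using hq⟩
    have hyC' : y ∈ cl x := by simpa using hyC
    have hzC' : z ∉ cl x := by simpa using hzC
    have hWQ : ∃ t ∈ W, t ∈ Q := by
      by_contra h
      push Not at h
      have hW0 : W ⊆ D0 := fun t ht => Finset.mem_sdiff.2 ⟨hWD ht, h t ht⟩
      have h1 : Conn E (cl x ∪ W) :=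
        conn_union (hcl x hx) (conn_edge hW ⟨y, hyW⟩) ⟨y, hyC', hyW⟩
      have h2 := hsub x hx _ h1 (Finset.union_subset (hcl0 x hx) hW0)
        (Finset.mem_union_left _ (hmem x hx))
      exact hzC' (h2 (Finset.mem_union_right _ hzW))
    have hyN : y ∈ NQ := hNQ W hW hWQ hyW
    have hy0 : y ∈ D0 := hcl0 x hx hyC'
    refine ⟨y, hyN, hy0, ?_⟩
    exact hsub y hy0 (cl x) (hcl x hx) (hcl0 x hx) hyC' (hmem x hx)
  by_contra hno
  push Not at hno
  have hsmall : ∀ z ∈ D0, (cl z).card ≤ N := by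
    intro z hz
    refine (hno (cl z) (hcl z hz) ?_).le
    rw [Finset.disjoint_left]
    exact fun t ht => (Finset.mem_sdiff.1 (hcl0 z hz ht)).2
  have hcov : D0 ⊆ (NQ.filter fun z => z ∈ D0).biUnion cl := by
    intro x hx
    obtain ⟨z, hz, hz0, hxz⟩ := hpt x hx
    rw [Finset.mem_biUnion]
    exact ⟨z, Finset.mem_filter.2 ⟨hz, hz0⟩, hxz⟩
  have h3 : D0.card ≤ NQ.card * N := by
    refine (Finset.card_le_card hcov).trans ?_
    refine (Finset.card_biUnion_le_card_mul _ _ N fun z hz =>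
      hsmall z (Finset.mem_filter.1 hz).2).trans ?_
    exact Nat.mul_le_mul_right _ (Finset.card_le_card (Finset.filter_subset _ _))
  have h4 : D.card ≤ D0.card + Q.card := by
    have := Finset.le_card_sdiff Q D
    rw [← hD0] at this
    omega
  omega

theorem hyp : T_HYP := by
  classical
  intro V E m hm hfin hbig s hs
  have hstep : ∀ (n : ℕ) (Q : Finset V), ∃ T : Finset V, Conn E T ∧ Disjoint T Q ∧
      s n ≤ T.card ∧ T.card ≤ s n + m := by
    intro n Q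
    obtain ⟨D, hD, hdis, hcard⟩ := conn_avoid E hfin hbig Q (s n)
    obtain ⟨x, hx⟩ := hD.1
    obtain ⟨T, hT, -, hTD, h1, h2⟩ := conn_cut E m hm D hD x hx (s n) (hs n) hcard
    exact ⟨T, hT, Finset.disjoint_of_subset_left hTD hdis, h1, h2⟩
  choose ch hch hdis hle hge using hstep
  choose nb hnb using fun Q => exists_nbhd E hfin Q
  let Q : ℕ → Finset V := fun n => Nat.rec ∅ (fun n Q => Q ∪ (ch n Q ∪ nb (ch n Q))) n
  have hQS : ∀ n, Q (n + 1) = Q n ∪ (ch n (Q n) ∪ nb (ch n (Q n))) := fun n => rfl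
  have hQmono : ∀ i j, i ≤ j → Q i ⊆ Q j := by
    intro i j hij
    induction j, hij using Nat.le_induction with
    | base => exact Finset.Subset.refl _
    | succ j _ ih =>
      rw [hQS]
      exact ih.trans Finset.subset_union_left
  set T : ℕ → Finset V := fun n => ch n (Q n) with hT
  have hlater : ∀ i j, i < j → ∀ x, x ∈ T i ∨ x ∈ nb (T i) → x ∉ T j := by
    intro i j hij x hx hxj
    have h1 : x ∈ Q (i + 1) := by
      rw [hQS]
      rcases hx with h | h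
      · exact Finset.mem_union_right _ (Finset.mem_union_left _ h)
      · exact Finset.mem_union_right _ (Finset.mem_union_right _ h)
    have h2 : x ∈ Q j := hQmono (i + 1) j hij h1
    exact Finset.disjoint_left.1 (hdis j (Q j)) hxj h2
  refine ⟨T, fun n => ⟨hch n (Q n), hle n (Q n), hge n (Q n)⟩, ?_, ?_⟩
  · intro n n' hne
    rw [Finset.disjoint_left]
    intro x hx hx'
    rcases Nat.lt_or_gt_of_ne hne with h | h
    · exact hlater n n' h x (Or.inl hx) hx'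
    · exact hlater n' n h x (Or.inl hx') hx
  · intro W hW n n' hne hmeet x hxW hx'
    obtain ⟨y, hyW, hy⟩ := hmeet
    rcases Nat.lt_or_gt_of_ne hne with h | h
    · exact hlater n n' h x (Or.inr (hnb (T n) W hW ⟨y, hyW, hy⟩ hxW)) hx'
    · exact hlater n' n h y (Or.inr (hnb (T n') W hW ⟨x, hxW, hx'⟩ hyW)) hy

end Pool.Agent.H97.UV
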