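import Pool.Agent.H72.UV.Targets

/-!
# Module RAM: the infinite Ramsey theorem
-/

set_option autoImplicit false

open Set Filter Topology

namespace Pool.Agent.H97.UV

open Pool.Agent.H72.UV

theorem ram_aux (K : Type) [Finite K] (d : ℕ) :
    ∀ col : (Fin d → ℕ) → K, ∃ f : ℕ → ℕ, StrictMono f ∧
      ∃ v, ∀ t : Fin d → ℕ, StrictMono t → col (f ∘ t) = v := by
  induction d with
  | zero =>
    intro col
    exact ⟨id, strictMono_id, col Fin.elim0, fun t _ => by
      congr 1
      exact Subsingleton.elim _ _⟩
  | succ d ih =>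
    intro col
    have step : ∀ h : ℕ → ℕ, ∃ (g : ℕ → ℕ) (v : K), StrictMono g ∧
        ∀ t : Fin d → ℕ, StrictMono t →
          col (Fin.cons (h 0) (fun j => h (g (t j) + 1)) : Fin (d + 1) → ℕ) = v := by
      intro h
      obtain ⟨g, hg, v, hv⟩ := ih fun t => col (Fin.cons (h 0) (fun j => h (t j + 1)))
      exact ⟨g, v, hg, fun t ht => hv t ht⟩
    choose G V hG hV using step
    let H : ℕ → (ℕ → ℕ) := fun n => Nat.rec id (fun _ h => fun n => h (G h n + 1)) n
    have H0 : H 0 = id := rfl
    have HS : ∀ n, H (n + 1) = fun k => H n (G (H n) k + 1) := fun n => rfl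
    have Hmono : ∀ n, StrictMono (H n) := by
      intro n
      induction n with
      | zero => rw [H0]; exact strictMono_id
      | succ n ihn =>
        rw [HS]
        intro a b hab
        exact ihn (Nat.add_lt_add_right (hG _ hab) 1)
    have Hfac : ∀ i j, i < j → ∃ φ : ℕ → ℕ, ∀ k, H j k = H (i + 1) (φ k) := by
      intro i j hij
      obtain ⟨m, rfl⟩ : ∃ m, j = i + 1 + m := ⟨j - (i + 1), by omega⟩
      clear hij
      induction m with
      | zero => exact ⟨id, fun k => rfl⟩
      | succ m ihm =>
        obtain ⟨φ, hφ⟩ := ihm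
        refine ⟨fun k => φ (G (H (i + 1 + m)) k + 1), fun k => ?_⟩
        rw [← hφ]
        have := HS (i + 1 + m)
        exact congrFun this k
    set a : ℕ → ℕ := fun n => H n 0 with ha
    have hamono : StrictMono a := by
      refine strictMono_nat_of_lt_succ fun n => ?_
      show H n 0 < H (n + 1) 0
      rw [HS]
      exact Hmono n (Nat.succ_pos _)
    -- a colour taken infinitely often
    obtain ⟨v, hv⟩ : ∃ v : K, {i : ℕ | V (H i) = v}.Infinite := by
      obtain ⟨v, hv⟩ := Finite.exists_infinite_fiber fun i => V (H i)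
      refine ⟨v, ?_⟩
      have h2 := Set.infinite_coe_iff.1 hv
      exact h2
    set e : ℕ → ℕ := Nat.nth (fun i => V (H i) = v) with he
    have hemono : StrictMono e := Nat.nth_strictMono hv
    have hev : ∀ k, V (H (e k)) = v := fun k => Nat.nth_mem_of_infinite hv k
    refine ⟨a ∘ e, hamono.comp hemono, v, fun t ht => ?_⟩
    -- the tail lies in the range of H (i + 1)
    set i := e (t 0) with hi
    have hlt : ∀ j : Fin d, i < e (t j.succ) := fun j => hemono (ht (Fin.succ_pos j))
    have hex : ∀ j : Fin d, ∃ s, a (e (t j.succ)) = H (i + 1) s := by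
      intro j
      obtain ⟨φ, hφ⟩ := Hfac i _ (hlt j)
      exact ⟨φ 0, hφ 0⟩
    choose s hs using hex
    have hsm : StrictMono s := by
      intro j j' hjj
      have h1 : a (e (t j.succ)) < a (e (t j'.succ)) :=
        hamono (hemono (ht (Fin.succ_lt_succ_iff.2 hjj)))
      rw [hs, hs] at h1
      exact (Hmono (i + 1)).lt_iff_lt.1 h1
    have h2 := hV (H i) s hsm
    rw [hev (t 0)] at h2
    rw [← h2]
    congr 1
    funext j
    refine Fin.cases ?_ (fun j => ?_) j
    · rfl
    · show a (e (t j.succ)) = H i (G (H i) (s j) + 1)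
      rw [hs j]

theorem ram : T_RAM := fun d K hK col => by
  have := hK
  exact ram_aux K d col

end Pool.Agent.H97.UV
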